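import Mathlib
import Pool.Agent.H151.TEmb

/-!
No copy of the Cantor cube of uncountable weight in a Tychonoff cube is t-embedded.
-/

set_option autoImplicit false

open Set Topology unitInterval

namespace Pool.Agent.Results.MP_5b7d0d_gt.CantorCube

universe u

/-- The Cantor cube `D ^ κ`, as the set of points of the Tychonoff cube `[0,1] ^ κ` all of whose
coordinates are `0` or `1`. -/
def cantorCube (κ : Type u) : Set (κ → I) := {y | ∀ i, y i = 0 ∨ y i = 1}

/-- For every uncountable index set `κ` the Cantor cube `D ^ κ` is not t-embedded in the Tychonoff
cube `[0,1] ^ κ`; more generally no subspace of a Tychonoff cube `[0,1] ^ lam` which is homeomorphic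
to `D ^ κ` is t-embedded in it. -/
theorem result (κ : Type u) [Uncountable κ] :
    ¬ Pool.Agent.H151.TEmbedded (cantorCube κ) ∧
    ∀ (lam : Type u) (e : (κ → Bool) → (lam → I)), IsEmbedding e →
      ¬ Pool.Agent.H151.TEmbedded (range e) := by
  have h2 : ∀ (lam : Type u) (e : (κ → Bool) → (lam → I)), IsEmbedding e →
      ¬ Pool.Agent.H151.TEmbedded (range e) := by
    intro lam e he h
    exact Pool.Agent.H151.cantor_uncountable κ (Pool.Agent.H151.countable_of_temb_range e he h)
  refine ⟨?_, h2⟩
  classical
  let e : (κ → Bool) → (κ → I) := fun x i => if x i then 1 else 0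
  have hc : Continuous fun b : Bool => (if b then (1 : I) else 0) := continuous_of_discreteTopology
  have he : Continuous e := continuous_pi fun i => hc.comp (continuous_apply i)
  have hinj : Function.Injective e := by
    intro x x' h
    ext i
    have h1 := congrFun h i
    simp only [e] at h1
    cases hx : x i <;> cases hx' : x' i <;> simp_all
  have hr : range e = cantorCube κ := by
    ext y
    constructor
    · rintro ⟨x, rfl⟩ i
      simp only [e]
      cases x i <;> simp
    · intro hy
      refine ⟨fun i => decide (y i = 1), ?_⟩
      ext1 i
      simp only [e]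
      rcases hy i with h | h
      · simp [h]
      · simp [h]
  rw [← hr]
  exact h2 κ e (he.isClosedEmbedding hinj).isEmbedding

end Pool.Agent.Results.MP_5b7d0d_gt.CantorCube
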